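import Mathlib

namespace Pool.Agent.Results.MP_46e774_pr.Limit
open MeasureTheory ProbabilityTheory Filter Finset
open scoped ENNReal Topology Classical

def lo (ω : ℕ → ℝ × ℝ) (i : ℕ) : ℝ := min (ω i).1 (ω i).2
def hi (ω : ℕ → ℝ × ℝ) (i : ℕ) : ℝ := max (ω i).1 (ω i).2

/-- the order `i ≺ j` of the poset `Q_S` -/
def prec (ω : ℕ → ℝ × ℝ) (i j : ℕ) : Prop := i < j ∧ hi ω i ≤ lo ω j

/-- `A` is a `k`-ary chain: a rooted tree on `A` (root `r`, parent map `par`), every parent below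
its child, at most `k` children per vertex -/
def IsChain (k : ℕ) (ω : ℕ → ℝ × ℝ) (A : Finset ℕ) : Prop :=
  ∃ r ∈ A, ∃ par : ℕ → ℕ, (∀ j ∈ A.erase r, par j ∈ A ∧ prec ω (par j) j) ∧
    ∀ i, #{j ∈ A.erase r | par j = i} ≤ k

/-- the `k`-width of the first `n` intervals -/
noncomputable def wd (k : ℕ) (ω : ℕ → ℝ × ℝ) (n : ℕ) : ℕ :=
  sInf {c | ∃ π : Finpartition (range n), #π.parts = c ∧ ∀ A ∈ π.parts, IsChain k ω A}

noncomputable def U : Measure ℝ := volume.restrict (Set.Ioo 0 1)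

/-- i.i.d. pairs of independent uniform points of `(0,1)` -/
noncomputable def P : Measure (ℕ → ℝ × ℝ) := Measure.infinitePi fun _ => U.prod U

variable {k n : ℕ} {ω : ℕ → ℝ × ℝ}

lemma lower (x : ℝ) : #{j ∈ range n | lo ω j < x} ≤ wd k ω n + k * #{i ∈ range n | hi ω i ≤ x} := by
  obtain ⟨π, h1, h2⟩ := Nat.sInf_mem (s := {c | ∃ π : Finpartition (range n), #π.parts = c ∧
    ∀ A ∈ π.parts, IsChain k ω A}) ⟨_, ⊥, rfl, fun A hA => by
      obtain ⟨a, -, rfl⟩ := Finpartition.mem_bot_iff.1 hA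
      exact ⟨a, by simp, id, by simp, by simp⟩⟩
  have e : ∀ p : ℕ → Prop, #{j ∈ range n | p j} = ∑ A ∈ π.parts, #{j ∈ A | p j} := fun p => by
    conv_lhs => rw [← π.biUnion_parts, filter_biUnion]
    exact card_biUnion fun A hA B hB h => disjoint_filter_filter (π.disjoint hA hB h)
  rw [wd, ← h1, e, e, card_eq_sum_ones π.parts, mul_sum, ← sum_add_distrib]
  refine sum_le_sum fun A hA => ?_
  obtain ⟨r, -, par, h3, h4⟩ := h2 A hA
  have := card_le_mul_card_image_of_maps_to (s := {j ∈ A.erase r | lo ω j < x})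
    (t := {i ∈ A | hi ω i ≤ x}) (f := par) (fun j hj => by
      rw [mem_filter] at hj ⊢
      exact ⟨(h3 j hj.1).1, (h3 j hj.1).2.2.trans hj.2.le⟩) k fun i _ =>
    (card_le_card (filter_subset_filter _ (filter_subset _ _))).trans (h4 i)
  rw [filter_erase] at this
  have := pred_card_le_card_erase (s := {j ∈ A | lo ω j < x}) (a := r)
  omega

def root (q : ℕ → ℕ) (j : ℕ) : ℕ := if q j < j then root q (q j) else j

lemma root_spec (q : ℕ → ℕ) (j : ℕ) : root q j ≤ j ∧ ¬ q (root q j) < root q j := by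
  induction j using Nat.strong_induction_on with
  | _ j ih =>
    rw [root]
    split_ifs with h
    exacts [⟨(ih _ h).1.trans h.le, (ih _ h).2⟩, ⟨le_rfl, h⟩]

lemma forest (q : ℕ → ℕ) (h1 : ∀ j < n, q j < j → prec ω (q j) j)
    (h2 : ∀ i, #{j ∈ range n | q j < j ∧ q j = i} ≤ k) :
    wd k ω n ≤ #{j ∈ range n | ¬ q j < j} := by
  have idem : ∀ j, root q (root q j) = root q j := fun j => by
    rw [root, if_neg (root_spec q j).2]
  refine le_trans (Nat.sInf_le ⟨.ofSetSetoid (Setoid.ker (root q)) (range n), rfl, fun A hA => ?_⟩) ?_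
  · obtain ⟨a, ha, rfl⟩ := mem_image.1 hA
    simp only [mem_range] at ha
    have key : ∀ j ∈ ({b ∈ range n | Setoid.ker (root q) a b} : Finset ℕ).erase (root q a),
        j < n ∧ q j < j ∧ root q a = root q (q j) := fun j hj => by
      simp only [mem_erase, mem_filter, mem_range, Setoid.ker_def] at hj
      have := hj.2.2
      rw [root.eq_1 q j] at this
      split_ifs at this with h
      exacts [⟨hj.2.1, h, this⟩, absurd this.symm hj.1]
    refine ⟨root q a, by simp [Setoid.ker_def, idem, (root_spec q a).1.trans_lt ha], q,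
      fun j hj => ⟨?_, h1 j (key j hj).1 (key j hj).2.1⟩, fun i => le_trans (card_le_card ?_) (h2 i)⟩
    · simpa [Setoid.ker_def] using ⟨(key j hj).2.1.trans (key j hj).1, (key j hj).2.2⟩
    · intro j hj
      rw [mem_filter] at hj ⊢
      exact ⟨mem_range.2 (key j hj.1).1, (key j hj.1).2.1, hj.2⟩
  · refine le_trans (card_le_card fun A hA => ?_)
      (card_image_le (f := fun a => {b ∈ range n | Setoid.ker (root q) a b}))
    obtain ⟨a, ha, rfl⟩ := mem_image.1 hA
    exact mem_image.2 ⟨root q a, mem_filter.2 ⟨mem_range.2 ((root_spec q a).1.trans_lt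
      (mem_range.1 ha)), (root_spec q a).2⟩, by simp [Setoid.ker_def, idem]⟩

lemma hall {y : ℝ} (hy : 0 ≤ y) (h : ∀ S ⊆ range n, ∃ N : Finset ℕ,
    (∀ i ∈ N, ∃ j ∈ S, prec ω i j) ∧ (#S : ℝ) ≤ y + k * #N) : wd k ω n ≤ y := by
  obtain ⟨f, hf, hm⟩ := (all_card_le_biUnion_card_iff_existsInjective' fun j : Fin n =>
    {i ∈ range j | prec ω i j} ×ˢ range k ∪ {n} ×ˢ range ⌊y⌋₊).1 fun s => by
      rcases s.eq_empty_or_nonempty with rfl | ⟨j0, hj0⟩
      · simp
      obtain ⟨N, h1, h2⟩ := h (s.map Fin.valEmbedding) (by simp [subset_iff])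
      simp only [Finset.mem_map, Fin.valEmbedding_apply, exists_exists_and_eq_and, card_map] at h1 h2
      have hd : Disjoint (N ×ˢ range k) ({n} ×ˢ range ⌊y⌋₊) := disjoint_left.2 fun p h3 h4 => by
        obtain ⟨j, -, hj⟩ := h1 _ (mem_product.1 h3).1
        have := mem_singleton.1 (mem_product.1 h4).1
        have := hj.1
        omega
      refine le_trans ?_ (card_le_card (s := N ×ˢ range k ∪ {n} ×ˢ range ⌊y⌋₊) (union_subset
        (fun p hp => ?_) fun p hp => mem_biUnion.2 ⟨j0, hj0, mem_union_right _ hp⟩))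
      · rw [card_union_of_disjoint hd, card_product, card_product, card_range, card_range,
          card_singleton, one_mul, ← tsub_le_iff_left, Nat.le_floor_iff hy]
        rcases le_total #s (#N * k) with h3 | h3
        · simpa [Nat.sub_eq_zero_of_le h3] using hy
        · rw [Nat.cast_sub h3]; push_cast; linarith
      · obtain ⟨j, hj, h3⟩ := h1 _ (mem_product.1 hp).1
        exact mem_biUnion.2 ⟨j, hj, mem_union_left _ (mem_product.2
          ⟨mem_filter.2 ⟨mem_range.2 h3.1, h3⟩, (mem_product.1 hp).2⟩)⟩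
  let g : ℕ → ℕ × ℕ := fun j => if h : j < n then f ⟨j, h⟩ else 0
  have gi : Set.InjOn g (range n) := fun a ha b hb e => by
    simp only [coe_range, Set.mem_Iio] at ha hb
    simpa [g, ha, hb, hf.eq_iff] using e
  have gm : ∀ j < n, ((g j).1 < j ∧ prec ω (g j).1 j ∧ (g j).2 < k) ∨
      ((g j).1 = n ∧ (g j).2 < ⌊y⌋₊) := fun j hj => by
    simpa [g, hj, and_assoc, -singleton_product] using hm ⟨j, hj⟩
  have cnt : ∀ (p : ℕ → Prop) [DecidablePred p] (i c : ℕ), (∀ j < n, p j → (g j).1 = i ∧ (g j).2 < c) →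
      #{j ∈ range n | p j} ≤ c := fun p _ i c hp =>
    (card_le_card_of_injOn (t := {i} ×ˢ range c) g (fun j hj => by
      simpa [-singleton_product] using hp j (mem_range.1 (mem_filter.1 hj).1) (mem_filter.1 hj).2)
      (gi.mono (by simp [Set.subset_def]; tauto))).trans (by simp)
  refine le_trans (Nat.cast_le.2 ((forest (fun j => (g j).1) (fun j hj h1 => ?_) fun i =>
    cnt _ i k fun j hj h1 => ⟨h1.2, ?_⟩).trans (cnt _ n _ fun j hj h1 => ?_))) (Nat.floor_le hy)
  · exact (gm j hj).elim (fun h => h.2.1) fun h => by omega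
  · exact (gm j hj).elim (fun h => h.2.2) fun h => by omega
  · exact (gm j hj).elim (fun h => absurd h.1 h1) id

instance : IsProbabilityMeasure U := ⟨by simp [U]⟩
instance : IsProbabilityMeasure P := by unfold P; infer_instance

def El (y : ℝ) : Set (ℝ × ℝ) := (Set.Ici y ×ˢ Set.Ici y)ᶜ
def Eh (x : ℝ) : Set (ℝ × ℝ) := Set.Iic x ×ˢ Set.Iic x
lemma mEl (y : ℝ) : MeasurableSet (El y) := (measurableSet_Ici.prod measurableSet_Ici).compl
lemma mEh (y : ℝ) : MeasurableSet (Eh y) := measurableSet_Iic.prod measurableSet_Iic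

lemma pEl {y : ℝ} (h0 : 0 ≤ y) (h1 : y ≤ 1) : (U.prod U).real (El y) = 1 - (1 - y) ^ 2 := by
  have : U.real (Set.Ici y) = 1 - y := by
    rw [U, Measure.restrict_congr_set Ioo_ae_eq_Ico, measureReal_restrict_apply measurableSet_Ici,
      show Set.Ici y ∩ Set.Ico 0 1 = Set.Ico y 1 by ext; simp; grind, Real.volume_real_Ico_of_le h1]
  rw [El, probReal_compl_eq_one_sub (measurableSet_Ici.prod measurableSet_Ici),
    measureReal_prod_prod, this, sq]

lemma pEh {y : ℝ} (h0 : 0 ≤ y) (h1 : y ≤ 1) : (U.prod U).real (Eh y) = y ^ 2 := by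
  have : U.real (Set.Iic y) = y := by
    rw [U, Measure.restrict_congr_set Ioo_ae_eq_Ioc, measureReal_restrict_apply measurableSet_Iic,
      show Set.Iic y ∩ Set.Ioc 0 1 = Set.Ioc 0 y by ext; simp; grind, Real.volume_real_Ioc_of_le h0,
      sub_zero]
  rw [Eh, measureReal_prod_prod, this, sq]

noncomputable def Z (E : Set (ℝ × ℝ)) (B : Finset ℕ) (ω : ℕ → ℝ × ℝ) : ℝ :=
  ∑ j ∈ B, (E.indicator 1 (ω j) - (U.prod U).real E)

lemma Z_eq (E : Set (ℝ × ℝ)) (B : Finset ℕ) (p : ℕ → Prop) [DecidablePred p]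
    (h : ∀ j, p j ↔ ω j ∈ E) : (#{j ∈ B | p j} : ℝ) = Z E B ω + #B * (U.prod U).real E := by
  simp [Z, Set.indicator, h]

lemma Z_lo (y : ℝ) (B : Finset ℕ) : (#{j ∈ B | lo ω j < y} : ℝ) =
    Z (El y) B ω + #B * (U.prod U).real (El y) :=
  Z_eq _ _ _ fun j => by simp [lo, El, -not_and, not_and_or, Prod.le_def]
lemma Z_hi (y : ℝ) (B : Finset ℕ) : (#{j ∈ B | hi ω j ≤ y} : ℝ) =
    Z (Eh y) B ω + #B * (U.prod U).real (Eh y) := Z_eq _ _ _ fun j => by simp [hi, Eh, Prod.le_def]

lemma Z_spec {E : Set (ℝ × ℝ)} (hE : MeasurableSet E) (B : Finset ℕ) :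
    Integrable (Z E B) P ∧ ∫ ω, Z E B ω ∂P = 0 ∧ ∫ ω, |Z E B ω| ∂P ≤ √(#B) := by
  set f : ℝ × ℝ → ℝ := fun u => E.indicator 1 u - (U.prod U).real E
  have mf : Measurable f := (measurable_one.indicator hE).sub_const _
  have hb : ∀ u, f u ∈ Set.Icc (-1 : ℝ) 1 := fun u => by
    have := measureReal_le_one (μ := U.prod U) (s := E)
    have := measureReal_nonneg (μ := U.prod U) (s := E)
    simp only [f, Set.indicator]; split_ifs <;> constructor <;> simp <;> linarith
  have l2 : ∀ j, MemLp (fun ω : ℕ → ℝ × ℝ => f (ω j)) 2 P := fun j =>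
    memLp_of_bounded (.of_forall fun ω => hb _)
      (mf.comp (measurable_pi_apply j)).aestronglyMeasurable 2
  have m0 : ∀ j, ∫ ω, f (ω j) ∂P = 0 := fun j => by
    rw [← integral_map (measurable_pi_apply j).aemeasurable mf.aestronglyMeasurable, P,
      Measure.infinitePi_map_eval, integral_sub ((integrable_const 1).indicator hE)
      (integrable_const _), integral_indicator_one hE]
    simp
  have e : Z E B = ∑ j ∈ B, fun ω : ℕ → ℝ × ℝ => f (ω j) := by ext; simp [Z, f]
  have lZ : MemLp (Z E B) 2 P := e ▸ memLp_finsetSum' _ fun j _ => l2 j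
  have z0 : ∫ ω, Z E B ω ∂P = 0 := by
    refine (integral_finsetSum B fun j _ => (l2 j).integrable one_le_two).trans ?_
    simp [m0]
  refine ⟨lZ.integrable one_le_two, z0, Real.le_sqrt_of_sq_le ?_⟩
  have h1 := variance_nonneg |Z E B| P
  have h2 := variance_eq_sub lZ
  have h3 : Var[Z E B; P] ≤ #B := by
    rw [e, IndepFun.variance_sum (fun j _ => l2 j) fun i _ j _ h =>
      (iIndepFun_infinitePi (X := fun _ => f) fun _ => mf).indepFun h]
    refine (sum_le_card_nsmul _ _ 1 fun j _ => (variance_le_sq_of_bounded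
      (.of_forall fun ω => hb _) (l2 j).aemeasurable).trans (by norm_num)).trans (by simp)
  rw [variance_eq_sub lZ.abs] at h1
  simp only [Pi.abs_apply, Pi.pow_apply, sq_abs] at h1 h2
  rw [z0] at h2
  linarith

def blk (N t : ℕ) : Finset ℕ := Ico (t * N) (t * N + N)

noncomputable def up (k N T M : ℕ) (ω : ℕ → ℝ × ℝ) : ℝ :=
  N + ∑ t ∈ range T, (N * (1 / (k + 1) + 2 / M) + ∑ m ∈ range M,
    (|Z (El ((m + 1) / M)) (blk N (t + 1)) ω| + k * |Z (Eh (m / M)) (blk N t) ω|))

lemma upper {N T M : ℕ} (hM : 0 < M) (hn : n ≤ T * N + N) (h : ∀ j, lo ω j ∈ Set.Ioo (0 : ℝ) 1) :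
    wd k ω n ≤ up k N T M ω := by
  have hM' : (0 : ℝ) < M := by exact_mod_cast hM
  refine hall (by unfold up; positivity) fun S hS => ?_
  have key : ∀ t, ∃ Nb ⊆ blk N t, (∀ i ∈ Nb, ∃ j ∈ S, prec ω i j) ∧ (#(S ∩ blk N (t + 1)) : ℝ) ≤
      N * (1 / (k + 1) + 2 / M) + ∑ m ∈ range M, (|Z (El ((m + 1) / M)) (blk N (t + 1)) ω| +
        k * |Z (Eh (m / M)) (blk N t) ω|) + k * #Nb := fun t => by
    rcases (S ∩ blk N (t + 1)).eq_empty_or_nonempty with h0 | h0
    · exact ⟨∅, by simp, by simp, by simp only [h0, card_empty, Nat.cast_zero]; positivity⟩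
    obtain ⟨j, hj, hmax⟩ := exists_max_image _ (lo ω) h0
    set m := ⌊lo ω j * M⌋₊
    have a1 : (m : ℝ) / M ≤ lo ω j := (div_le_iff₀ hM').2 (Nat.floor_le (mul_pos (h j).1 hM').le)
    have a2 : lo ω j < (m + 1) / M := (lt_div_iff₀ hM').2 (Nat.lt_floor_add_one _)
    have a3 : m < M := by exact_mod_cast (div_lt_one hM').1 (a1.trans_lt (h j).2)
    have a4 : ((m : ℝ) + 1) / M ≤ 1 := (div_le_one hM').2 (by exact_mod_cast a3)
    refine ⟨{i ∈ blk N t | hi ω i ≤ m / M}, filter_subset _ _, fun i hi => ⟨j, (mem_inter.1 hj).1,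
      ?_, (mem_filter.1 hi).2.trans a1⟩, ?_⟩
    · have := (mem_Ico.1 (mem_filter.1 hi).1).2
      have := (mem_Ico.1 (mem_inter.1 hj).2).1
      rw [add_mul] at this; omega
    have b1 : (#(S ∩ blk N (t + 1)) : ℝ) ≤ #{i ∈ blk N (t + 1) | lo ω i < (m + 1) / M} :=
      Nat.cast_le.2 (card_le_card fun i hi =>
        mem_filter.2 ⟨(mem_inter.1 hi).2, (hmax i hi).trans_lt a2⟩)
    have b2 := single_le_sum (f := fun m : ℕ => |Z (El ((m + 1) / M)) (blk N (t + 1)) ω| +
      k * |Z (Eh (m / M)) (blk N t) ω|) (fun _ _ => by positivity) (mem_range.2 a3)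
    have b3 : 1 - (1 - ((m : ℝ) + 1) / M) ^ 2 - k * (m / M) ^ 2 ≤ 1 / (k + 1) + 2 / M := by
      have : 2 * (m / M) - (k + 1) * (m / M : ℝ) ^ 2 ≤ 1 / (k + 1) := by
        rw [le_div_iff₀ (by positivity)]; nlinarith [sq_nonneg ((k + 1) * (m / M : ℝ) - 1)]
      have h5 : (0 : ℝ) ≤ m / M * (1 / M) := by positivity
      rw [add_div, show 2 / (M : ℝ) = 2 * (1 / M) by ring]; nlinarith [sq_nonneg (1 / M : ℝ)]
    have b4 := mul_le_mul_of_nonneg_left b3 N.cast_nonneg
    have b5 := mul_le_mul_of_nonneg_left (neg_abs_le (Z (Eh (m / M)) (blk N t) ω)) k.cast_nonneg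
    rw [Z_lo, pEl (by positivity) a4] at b1
    rw [Z_hi, pEh (by positivity) (a1.trans (h j).2.le)]
    simp only [blk, Nat.card_Ico, Nat.add_sub_cancel_left] at b1 b2 b5 ⊢
    linarith [le_abs_self (Z (El ((m + 1) / M)) (Ico ((t + 1) * N) ((t + 1) * N + N)) ω)]
  choose Nb h1 h2 h3 using key
  refine ⟨(range T).biUnion Nb, fun i hi => ?_, ?_⟩
  · obtain ⟨t, -, ht⟩ := mem_biUnion.1 hi
    exact h2 t i ht
  have c1 : #S ≤ N + ∑ t ∈ range T, #(S ∩ blk N (t + 1)) := by
    refine le_trans (card_le_card (t := range N ∪ (range T).biUnion fun t => S ∩ blk N (t + 1))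
      fun j hj => ?_) ((card_union_le _ _).trans (add_le_add (card_range N).le card_biUnion_le))
    have := mem_range.1 (hS hj)
    rcases lt_or_ge j N with h4 | h4
    · simp [h4]
    have hN : 0 < N := by by_contra h5; simp [Nat.le_zero.1 (not_lt.1 h5)] at hn; omega
    obtain ⟨t, ht⟩ : ∃ t, j / N = t + 1 := ⟨j / N - 1, by have := Nat.div_pos h4 hN; omega⟩
    refine mem_union_right _ (mem_biUnion.2 ⟨t, mem_range.2 ?_, mem_inter.2 ⟨hj, mem_Ico.2
      ⟨ht ▸ Nat.div_mul_le_self j N, ht ▸ Nat.lt_div_mul_add hN⟩⟩⟩)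
    have : j / N < T + 1 := (Nat.div_lt_iff_lt_mul hN).2 (by rw [add_mul]; omega)
    omega
  rw [card_biUnion fun s _ t _ hst => Disjoint.mono (h1 s) (h1 t) (disjoint_left.2 fun i a b => by
    simp only [blk, mem_Ico] at a b
    rcases lt_or_gt_of_ne hst with c | c <;> nlinarith [Nat.succ_le_of_lt c])]
  have c2 := sum_le_sum fun t (_ : t ∈ range T) => h3 t
  rw [sum_add_distrib, ← mul_sum] at c2
  have c3 : (#S : ℝ) ≤ N + ∑ t ∈ range T, (#(S ∩ blk N (t + 1)) : ℝ) := by exact_mod_cast c1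
  unfold up; push_cast; linarith

lemma ae_lo : ∀ᵐ ω ∂P, ∀ j, lo ω j ∈ Set.Ioo (0 : ℝ) 1 := ae_all_iff.2 fun j => by
  have h : ∀ᵐ u ∂U.prod U, u ∈ Set.Ioo (0 : ℝ) 1 ×ˢ Set.Ioo (0 : ℝ) 1 := by
    rw [U, Measure.prod_restrict]
    exact ae_restrict_mem (measurableSet_Ioo.prod measurableSet_Ioo)
  filter_upwards [(measurePreserving_eval_infinitePi (fun _ : ℕ => U.prod U) j).quasiMeasurePreserving.ae h]
    with ω h using ⟨lt_min h.1.1 h.2.1, min_lt_of_left_lt h.1.2⟩

lemma bounds {N T M : ℕ} (hM : 0 < M) (hn : n ≤ T * N + N) :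
    n / (k + 1) ≤ (∫⁻ ω, wd k ω n ∂P).toReal ∧ (∫⁻ ω, wd k ω n ∂P).toReal ≤
      N + T * (N * (1 / (k + 1) + 2 / M) + M * ((1 + k) * √N)) := by
  have i1 : ∀ t m : ℕ, Integrable (fun ω => |Z (El ((m + 1) / M)) (blk N (t + 1)) ω| +
      k * |Z (Eh (m / M)) (blk N t) ω|) P := fun t m =>
    (Z_spec (mEl _) _).1.abs.add ((Z_spec (mEh _) _).1.abs.const_mul _)
  have i2 : ∀ t : ℕ, Integrable (fun ω => (N * (1 / (k + 1) + 2 / M) : ℝ) + ∑ m ∈ range M,
      (|Z (El ((m + 1) / M)) (blk N (t + 1)) ω| + k * |Z (Eh (m / M)) (blk N t) ω|)) P :=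
    fun t => (integrable_const _).add (integrable_finsetSum (range M) fun m _ => i1 t m)
  have i3 : Integrable (up k N T M) P :=
    (integrable_const _).add (integrable_finsetSum _ fun t _ => i2 t)
  have u1 : ∫⁻ ω, wd k ω n ∂P ≤ ENNReal.ofReal (∫ ω, up k N T M ω ∂P) := by
    rw [ofReal_integral_eq_lintegral_ofReal i3 (.of_forall fun ω => by unfold up; positivity)]
    exact lintegral_mono_ae (ae_lo.mono fun ω h => (ENNReal.ofReal_natCast _).symm.trans_le
      (ENNReal.ofReal_le_ofReal (upper hM hn h)))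
  constructor
  · have hx : (1 : ℝ) / (k + 1) ≤ 1 := by rw [div_le_one (by positivity)]; linarith [k.cast_nonneg (α := ℝ)]
    obtain ⟨j1, j2, -⟩ := Z_spec (mEl (1 / (k + 1))) (range n)
    obtain ⟨j3, j4, -⟩ := Z_spec (mEh (1 / (k + 1))) (range n)
    have j5 := (j1.sub (j3.const_mul k)).add (integrable_const (n / (k + 1) : ℝ))
    have := integral_eq_lintegral_pos_part_sub_lintegral_neg_part j5
    rw [integral_add' (j1.sub (j3.const_mul k)) (integrable_const _), integral_sub' j1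
      (j3.const_mul k), integral_const_mul, j2, j4] at this
    simp only [mul_zero, sub_zero, zero_add, integral_const, probReal_univ, one_smul] at this
    refine this.trans_le ((sub_le_self _ ENNReal.toReal_nonneg).trans (ENNReal.toReal_mono
      (ne_top_of_le_ne_top ENNReal.ofReal_ne_top u1) (lintegral_mono fun ω =>
        (ENNReal.ofReal_le_ofReal ?_).trans_eq (ENNReal.ofReal_natCast _))))
    have := (Nat.cast_le (α := ℝ)).2 (lower (k := k) (n := n) (ω := ω) (1 / (k + 1)))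
    push_cast at this
    rw [Z_lo, Z_hi, pEl (by positivity) hx, pEh (by positivity) hx, card_range] at this
    have e : (n : ℝ) / (k + 1) = n * (1 - (1 - 1 / (k + 1)) ^ 2) - k * (n * (1 / (k + 1)) ^ 2) := by
      field_simp; ring
    simp only [Pi.add_apply, Pi.sub_apply]; linarith
  · refine ENNReal.toReal_le_of_le_ofReal (by positivity) (u1.trans (ENNReal.ofReal_le_ofReal ?_))
    unfold up
    rw [integral_add (integrable_const _) (integrable_finsetSum _ fun t _ => i2 t),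
      integral_finsetSum _ fun t _ => i2 t]
    simp only [integral_const, probReal_univ, one_smul]
    refine add_le_add_right ((sum_le_card_nsmul _ _ _ fun t _ => ?_).trans_eq
      (by rw [card_range, nsmul_eq_mul])) _
    rw [integral_add (integrable_const _) (integrable_finsetSum _ fun m _ => i1 t m),
      integral_finsetSum _ fun m _ => i1 t m]
    simp only [integral_const, probReal_univ, one_smul]
    refine add_le_add_right ((sum_le_card_nsmul _ _ _ fun m _ => ?_).trans_eq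
      (by rw [card_range, nsmul_eq_mul])) _
    rw [integral_add (Z_spec (mEl _) _).1.abs ((Z_spec (mEh _) _).1.abs.const_mul _),
      integral_const_mul]
    have a1 := (Z_spec (mEl ((m + 1) / M)) (blk N (t + 1))).2.2
    have a2 := mul_le_mul_of_nonneg_left (Z_spec (mEh (m / M)) (blk N t)).2.2 k.cast_nonneg
    simp only [blk, Nat.card_Ico, Nat.add_sub_cancel_left] at a1 a2 ⊢
    linarith

theorem result (k : ℕ) :
    Tendsto (fun n : ℕ => (∫⁻ ω, wd k ω n ∂P).toReal / n) atTop (𝓝 (1 / (k + 1))) := by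
  refine tendsto_order.2 ⟨fun a ha => (eventually_gt_atTop 0).mono fun n hn => ha.trans_le ?_,
    fun a ha => ?_⟩
  · rw [le_div_iff₀ (by positivity), one_div_mul_eq_div]
    exact (bounds (T := 0) (N := n) one_pos (by simp)).1
  obtain ⟨T, hT⟩ := exists_nat_gt (3 / (a - 1 / (k + 1)))
  have hT' : (0 : ℝ) < T := lt_trans (div_pos three_pos (sub_pos.2 ha)) hT
  have h0 : 0 < T := by exact_mod_cast hT'
  rw [div_lt_comm₀ (sub_pos.2 ha) hT'] at hT
  have t := ((tendsto_inv_atTop_zero.comp (Real.tendsto_sqrt_atTop.comp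
    tendsto_natCast_atTop_atTop)).const_mul (T * (T * (1 + k)) : ℝ)).const_add
      (3 / T + 1 / (k + 1) : ℝ)
  filter_upwards [t.eventually_lt_const (show _ < a by linarith), eventually_ge_atTop (T * T),
    eventually_gt_atTop 0] with n h1 h2 h3
  have hn : (0 : ℝ) < n := by exact_mod_cast h3
  have b := (bounds (k := k) (n := n) (N := n / T) (T := T) h0 (by
    have := Nat.div_add_mod n T
    have := Nat.mod_lt n h0
    have := (Nat.le_div_iff_mul_le h0).2 h2
    omega)).2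
  have c1 : ((n / T : ℕ) : ℝ) ≤ n / T := Nat.cast_div_le
  have c2 : √(n / T : ℕ) ≤ √n := Real.sqrt_le_sqrt (Nat.cast_le.2 (Nat.div_le_self _ _))
  refine lt_of_le_of_lt ?_ h1
  rw [div_le_iff₀ hn]
  refine b.trans (le_trans (by gcongr) (le_of_eq (?_ : n / T + T * (n / T * (1 / (k + 1) + 2 / T) +
    T * ((1 + k) * √n)) = _)))
  have := Real.sqrt_pos.2 hn
  simp only [Function.comp]
  conv_rhs => rw [add_mul, mul_assoc _ (√n)⁻¹, ← div_eq_inv_mul, Real.div_sqrt]
  field_simp; ring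

end Pool.Agent.Results.MP_46e774_pr.Limit
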